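import Pool.Agent.K6.H31.BR.GMs

/-!
# The exact order of the mean square of the Barnes multiple zeta-function for generic weights

Let `w` be weights of rational dimension `d` which are multiplicatively generic: for every `j` there are `d - 1` other weights
`w_i` such that for every `θ < 1` the product of the distances of the `d - 1` numbers `l w_i / w_j` from the nearest integers is
at least `(c/l)^(1/θ)` for all `l ≥ 1` (the ratios are not multiplicatively very well approximable). Then for all `a > 0`,
`σ ≥ max (1/2, r - d)` and `E ≥ 1` the mean square `I_1(σ, T) = ∫_1^T |ζ_r(σ + it; a, w)|² dt` is `O(T^(E+ε))` for every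
`ε > 0` if and only if `E ≥ 1 + (2/d)(r - d/2 - σ)`. So the order of the mean square is exactly
`max (1, 1 + (2/d)(r - d/2 - σ))`. For every `d ≥ 1` and almost every `v ∈ ℝ^d` all weights with the same `ℚ`-span as `v` are
multiplicatively generic.
-/

set_option autoImplicit false

open Filter Topology Asymptotics MeasureTheory

namespace Pool.Agent.Results.MP_047497_nt.GenericExponent

open Pool.Agent.Results.MP_047497_nt.AlmostAllWeights (IsBarnesZeta weightDim moment)

/-- The weights `w` are multiplicatively generic: for every `j` there are `d - 1` different indices `e 0, …, e (d - 2)`,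
`d = weightDim r w`, such that for every `θ` in `(0, 1)` there is `c > 0` with
`c ≤ l (∏ ‖l w_(e i) / w_j‖)^θ` for all integers `l ≥ 1`, where `‖y‖ = |y - round y|` is the distance to the nearest integer. -/
def MultiplicativelyGeneric (r : ℕ) (w : Fin r → ℝ) : Prop :=
  ∀ j : Fin r, ∃ e : Fin (weightDim r w - 1) → Fin r, Function.Injective e ∧
    ∀ θ : ℝ, 0 < θ → θ < 1 → ∃ c : ℝ, 0 < c ∧ ∀ l : ℕ, 1 ≤ l →
      c ≤ l * (∏ i, |l * (w (e i) / w j) - round (l * (w (e i) / w j))|) ^ θ

/-- (1) For all multiplicatively generic positive weights `w` of dimension `d ≥ 1`, all `a > 0`, all `σ ≥ max (1/2, r - d)` and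
all `E ≥ 1` the mean square `I_1(σ, T)` of the Barnes zeta function `Z = ζ_r(·; a, w)` is `O(T^(E+ε))` for every `ε > 0` if and
only if `1 + (2/d) (r - d/2 - σ) ≤ E`. (2) For every `d ≥ 1` and almost every `v ∈ ℝ^d` all positive weights with the same
`ℚ`-span as `v` have dimension `d` and are multiplicatively generic. -/
theorem result :
    (∀ (r : ℕ) (w : Fin r → ℝ) (a : ℝ) (Z : ℂ → ℂ), 1 ≤ r → (∀ i, 0 < w i) →
      MultiplicativelyGeneric r w → 0 < a → IsBarnesZeta r a w Z → ∀ σ E : ℝ, 1 / 2 ≤ σ →
      (r : ℝ) - weightDim r w ≤ σ → 1 ≤ E →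
      ((∀ ε : ℝ, 0 < ε → (fun T : ℝ => moment Z 1 σ T) =O[atTop] fun T : ℝ => T ^ (E + ε)) ↔
        1 + 2 / weightDim r w * (r - (weightDim r w : ℝ) / 2 - σ) ≤ E)) ∧
    (∀ d : ℕ, 1 ≤ d → ∀ᵐ v : Fin d → ℝ, ∀ (r : ℕ) (w : Fin r → ℝ), (∀ i, 0 < w i) →
      Submodule.span ℚ (Set.range w) = Submodule.span ℚ (Set.range v) →
      weightDim r w = d ∧ MultiplicativelyGeneric r w) := by
  constructor
  · intro r w a Z hr hw hMG ha hZ σ E hσ hσr hE
    have hd0 : weightDim r w ≠ 0 := Pool.Agent.K6.H31.BR.dim_ne_zero hr hw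
    obtain ⟨m, hm⟩ := Nat.exists_eq_succ_of_ne_zero hd0
    have hm' : weightDim r w = m + 1 := hm
    have hcast : (weightDim r w : ℝ) = m + 1 := by rw [hm']; push_cast; rfl
    have hMG' : Pool.Agent.K6.H31.BR.MultGen w m := by
      have e1 : weightDim r w - 1 = m := by omega
      unfold MultiplicativelyGeneric at hMG
      rw [e1] at hMG
      exact hMG
    rw [hcast] at hσr ⊢
    exact Pool.Agent.K6.H31.BR.exponent_mult hw ha hZ hm' hMG' hσ hσr hE
  · intro d hd
    obtain ⟨m, rfl⟩ : ∃ m, d = m + 1 := ⟨d - 1, by omega⟩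
    filter_upwards [Pool.Agent.Y616.BM.ae_indep (m + 1), Pool.Agent.K6.H31.BR.ae_rational m]
      with v hv hA r w hw hspan
    have hdim : weightDim r w = m + 1 := by
      unfold weightDim
      rw [hspan, finrank_span_eq_card hv, Fintype.card_fin]
    refine ⟨hdim, ?_⟩
    have h1 := Pool.Agent.K6.H31.BR.multGen_of_span hv hA hw hspan
    unfold MultiplicativelyGeneric
    have e1 : weightDim r w - 1 = m := by omega
    rw [e1]
    exact h1

end Pool.Agent.Results.MP_047497_nt.GenericExponent
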