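import Pool.Agent.K6.H31.BR.Ms

/-!
# The exact order of the mean square of the Barnes multiple zeta-function for every weight vector

Call positive weights `w` `κ`-resonant if there are arbitrarily large real `u` such that all the numbers `u w_j` have distance
at most `u ^ (-κ)` from integers. For ALL weights (any `r ≥ 2`, any rational dimension `d`), all `a > 0`, all `σ ≥ 1/2` and all
`E ≥ max (1, 2(r - 1 - σ))`: the mean square `I_1(σ, T) = ∫_1^T |ζ_r(σ + it; a, w)|² dt` is `O(T^(E+ε))` for every `ε > 0`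
if and only if `2 (r - σ) κ / (1 + κ) ≤ E` for all `κ` such that `w` is `κ`-resonant.

So with `τ(w)` the supremum of these `κ` the order of the mean square is exactly `max (1, 2 (r - σ) τ(w) / (1 + τ(w)))` for
`σ ≥ r - 3/2`. In particular (`E = 1`) for every weight vector and every `σ ≥ r - 3/2` the bound of Q1 for `k = 1` holds at `σ`
if and only if `σ ≥ r - 1/2 - 1/(2 τ(w))`. For `d ≤ 3` this covers the whole range `σ ≥ r - d/2` of Q1: Q1 for `k = 1` is true
for weights of dimension `d = 2, 3` if and only if they are not `κ`-resonant for any `κ > 1/(d-1)`, the exponent of Dirichlet's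
theorem.
-/

set_option autoImplicit false

open Filter Topology Asymptotics MeasureTheory

namespace Pool.Agent.Results.MP_047497_nt.MeanSquareExponent

open Pool.Agent.Results.MP_047497_nt.AlmostAllWeights (IsBarnesZeta moment)

/-- The weights `w` are `κ`-resonant: there are arbitrarily large real `u` such that each of the numbers `u w_j` has distance at
most `u ^ (-κ)` from an integer. -/
def Resonant {r : ℕ} (w : Fin r → ℝ) (κ : ℝ) : Prop :=
  ∀ U : ℝ, ∃ u : ℝ, U ≤ u ∧ ∀ j, ∃ n : ℤ, |u * w j - n| ≤ u ^ (-κ)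

/-- For all `r ≥ 2`, all positive weights `w`, all `a > 0`, all `σ ≥ 1/2` and all `E ≥ max (1, 2(r - 1 - σ))` the mean square
`I_1(σ, T)` of the Barnes zeta function `Z = ζ_r(·; a, w)` is `O(T^(E+ε))` for every `ε > 0` if and only if
`2 (r - σ) κ / (1 + κ) ≤ E` for all `κ > 0` for which `w` is `κ`-resonant. -/
theorem result (r : ℕ) (w : Fin r → ℝ) (a : ℝ) (Z : ℂ → ℂ) (hr : 2 ≤ r) (hw : ∀ i, 0 < w i)
    (ha : 0 < a) (hZ : IsBarnesZeta r a w Z) (σ E : ℝ) (hσ : 1 / 2 ≤ σ) (hE : 1 ≤ E)
    (hEσ : 2 * (r - 1 - σ) ≤ E) :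
    (∀ ε : ℝ, 0 < ε → (fun T : ℝ => moment Z 1 σ T) =O[atTop] fun T : ℝ => T ^ (E + ε)) ↔
      ∀ κ : ℝ, 0 < κ → Resonant w κ → 2 * (r - σ) * κ / (1 + κ) ≤ E := by
  rw [Pool.Agent.K6.H31.BR.exponent_iff hr hw ha hZ hσ hE hEσ]
  unfold Pool.Agent.K6.H31.BR.Resonant Resonant
  simp only [Filter.frequently_atTop]

end Pool.Agent.Results.MP_047497_nt.MeanSquareExponent
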