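import Pool.Agent.K6.H31.BR.Large

/-!
# Large moments of the Barnes multiple zeta-function for ALL weights to the left of `r - d/2`

For every `r ≥ 1`, every weight vector `w` with rational dimension `d`, every `a > 0`, `k ≥ 1` and `0 < σ < r - d/2` the moment
`I_k(σ, T) = ∫_1^T |ζ_r(σ + it; a, w)|^{2k} dt` is not `O(T^(1+η))` for any `η < (2k/d) (r - d/2 - σ)`. So the range
`σ ≥ r - d/2` of Q1 cannot be extended to the left for any weights and any `k`.

Proof idea: `Γ(s) ζ_r(s)` minus elementary terms is the Mellin transform of a regularised kernel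
`K(z) = e^(-a z) ∏ 1/(1 - e^(-w_j z))`. Plancherel's theorem on the ray of angle `π/2 - 1/T` bounds the square integral of
`K(z) z^(σ - 1/2)` on this ray by `C ∫_1^∞ |ζ_r(σ + it)|² t^(2σ-1) e^(-2t/T) dt + C`. By Dirichlet's theorem there are arbitrarily
large `u` such that all `u w_j` are within about `u^(-1/(d-1))` of integers (within any power if `d = 1`). If all `u w_j` are
within `ρ` of integers then `K` has size `ρ^(-r)` on a segment of length `ρ` of the ray at height `2 π u` with `T = 2 π u / ρ`.
-/

set_option autoImplicit false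

open Filter Topology Asymptotics MeasureTheory

namespace Pool.Agent.Results.MP_047497_nt.OmegaAllWeights

open Pool.Agent.Results.MP_047497_nt.AlmostAllWeights (IsBarnesZeta weightDim moment)

/-- For ALL `r ≥ 1`, all positive weights `w` (with `d = weightDim r w` the rational dimension of the span of the weights), all
`a > 0`, `k ≥ 1` and `0 < σ < r - d/2` the moment `I_k(σ, T)` of the Barnes zeta function `Z = ζ_r(·; a, w)` is not
`O(T^(1+η))` for any `η < (2k/d) (r - d/2 - σ)`. -/
theorem result (r : ℕ) (w : Fin r → ℝ) (a : ℝ) (Z : ℂ → ℂ) (hr : 1 ≤ r) (hw : ∀ i, 0 < w i)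
    (ha : 0 < a) (hZ : IsBarnesZeta r a w Z) (k : ℕ) (hk : 1 ≤ k) (σ η : ℝ) (hσ : 0 < σ)
    (hσr : σ < r - (weightDim r w : ℝ) / 2)
    (hη : η < 2 * k / weightDim r w * (r - (weightDim r w : ℝ) / 2 - σ)) :
    ¬ (fun T : ℝ => moment Z k σ T) =O[atTop] fun T : ℝ => T ^ (1 + η) :=
  Pool.Agent.K6.H31.BR.large_all hr hw ha hZ hk hσ hσr hη

end Pool.Agent.Results.MP_047497_nt.OmegaAllWeights
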