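import Pool.Agent.K6.H31.BR.Large

/-!
# Q1 fails for all resonant weights, in every dimension and for every moment

Let `w` be `τ`-resonant: there are arbitrarily large real `u` such that all the numbers `u w_j` have distance at most `u ^ (-τ)`
from integers. Then for all `a > 0`, all `k ≥ 1` and all `0 < σ < r - 1/2 - 1/(2τ)` the moment `I_k(σ, T)` of the Barnes zeta
function `ζ_r(s; a, w)` is not `O(T^(1+η))` for any `η < k (τ (2r - 1 - 2σ) - 1) / (1 + τ)`.

By Dirichlet's theorem all weights of rational dimension `d` are `τ`-resonant for `τ < 1/(d-1)`. For weights which are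
`τ`-resonant for some `τ > 1/(d-1)` (that is, simultaneously approximable beyond Dirichlet's exponent) the theorem shows that the
bound of Q1 fails for every `k` on the interval `r - d/2 ≤ σ < r - 1/2 - 1/(2τ)`. For `r = d = 2` these are the weights whose
ratio has irrationality exponent larger than `2`.
-/

set_option autoImplicit false

open Filter Topology Asymptotics MeasureTheory

namespace Pool.Agent.Results.MP_047497_nt.ResonantWeights

open Pool.Agent.Results.MP_047497_nt.AlmostAllWeights (IsBarnesZeta weightDim moment)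

/-- The weights `w` are `τ`-resonant: there are arbitrarily large real `u` such that each of the numbers `u w_j` has distance at
most `u ^ (-τ)` from an integer. -/
def Resonant {r : ℕ} (w : Fin r → ℝ) (τ : ℝ) : Prop :=
  ∀ U : ℝ, ∃ u : ℝ, U ≤ u ∧ ∀ j, ∃ n : ℤ, |u * w j - n| ≤ u ^ (-τ)

/-- If the positive weights `w` are `τ`-resonant, `τ > 0`, then for all `a > 0`, `k ≥ 1` and `σ > 0` with
`τ (2r - 1 - 2σ) > 1` the moment `I_k(σ, T)` of the Barnes zeta function `Z = ζ_r(·; a, w)` is not `O(T^(1+η))` for any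
`η < k (τ (2r - 1 - 2σ) - 1) / (1 + τ)`. For `τ > 1/(d-1)` (`d` the rational dimension of `w`) the range of `σ` contains
`r - d/2`, so the bound of Q1 fails for such weights for every `k`. -/
theorem result (r : ℕ) (w : Fin r → ℝ) (a : ℝ) (Z : ℂ → ℂ) (hw : ∀ i, 0 < w i) (ha : 0 < a)
    (hZ : IsBarnesZeta r a w Z) (k : ℕ) (hk : 1 ≤ k) (σ η τ : ℝ) (hσ : 0 < σ) (hτ : 0 < τ)
    (hres : Resonant w τ) (hστ : 1 < τ * (2 * r - 1 - 2 * σ))
    (hη : η < k * (τ * (2 * r - 1 - 2 * σ) - 1) / (1 + τ)) :
    ¬ (fun T : ℝ => moment Z k σ T) =O[atTop] fun T : ℝ => T ^ (1 + η) := by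
  refine Pool.Agent.K6.H31.BR.large_of_resonant hw ha hZ hk hσ hτ ?_ hστ hη
  unfold Pool.Agent.K6.H31.BR.Resonant
  rw [Filter.frequently_atTop]
  exact hres

end Pool.Agent.Results.MP_047497_nt.ResonantWeights
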